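import Pool.Agent.Work.MP_f76ce6_lc.Hier

/-!
# A positive answer to Q1 of MP_f76ce6_lc

There is a nontrivial variety, with a finite signature (two unary symbols) and two laws, such
that for every `n ≥ 1` the isomorphism relations of its `n`-generated and of its
`(n+1)`-generated c.e. algebras are computably bireducible, and lie strictly below the
`Σ⁰₃`-complete degree. In fact all of them are computably bireducible with equality of c.e. sets.
-/

namespace Pool.Agent.Results.MP_f76ce6_lc.FiniteSignature

open Pool.Agent.Work.MP_f76ce6_lc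

/-- There are a finite signature `S` and a finite set `V` of laws defining a nontrivial variety
such that for all `n ≥ 1`, for all computable numberings `ν`, `ν'` of the equations in `n` and
in `n + 1` generators (and such numberings exist): `I_{V_n} ≡_c I_{V_{n+1}}`, and
`I_{V_n} <_c E` for every `Σ⁰₃`-complete equivalence relation `E`. Moreover `I_{V_n}` is
computably bireducible with the equality of c.e. sets, it is a `Σ⁰₃` equivalence relation, and
some `Σ⁰₃` equivalence relation is not computably reducible to it. -/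
theorem result :
    ∃ (S : Signature) (V : Laws S), S.symb.Finite ∧ V.Finite ∧ V.Nontrivial ∧
      ∀ n : ℕ, 1 ≤ n → Nonempty (Numbering S n) ∧
        ∀ (ν : Numbering S n) (ν' : Numbering S (n + 1)),
          CEquiv (isoRel V ν) (isoRel V ν') ∧
          (∀ E : ℕ → ℕ → Prop, Sigma3Complete E → CLt (isoRel V ν) E) ∧
          (Equivalence (isoRel V ν) ∧ IsSigma3 (isoRel V ν) ∧
            ∃ F : ℕ → ℕ → Prop, Equivalence F ∧ IsSigma3 F ∧ ¬ CRed F (isoRel V ν)) ∧
          CEquiv (isoRel V ν) eqCE := by
  refine ⟨S2, V2, Set.finite_lt_nat 2, (Set.finite_singleton _).insert _, V2_nontrivial, fun n hn => ?_⟩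
  have : NeZero n := ⟨by omega⟩
  refine ⟨nonempty_numbering n, fun ν ν' => ?_⟩
  have h1 := isoRel_le_eqCE ν
  have h2 := eqCE_le_isoRel ν
  have h3 := isoRel_le_eqCE ν'
  have h4 := eqCE_le_isoRel ν'
  have h5 : ¬ CRed DRel (isoRel V2 ν) := fun h => DRel_not_CRed (h.trans h1)
  refine ⟨⟨h1.trans h4, h3.trans h2⟩, ?_, ⟨equivalence_of_CRed h1, isSigma3_of_CRed h1,
    DRel, DRel_equivalence, DRel_isSigma3, h5⟩, ⟨h1, h2⟩⟩
  intro E hE
  refine ⟨hE.2.2 _ (equivalence_of_CRed h1) (isSigma3_of_CRed h1), fun h => ?_⟩
  exact h5 ((hE.2.2 _ DRel_equivalence DRel_isSigma3).trans h)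

end Pool.Agent.Results.MP_f76ce6_lc.FiniteSignature
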